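import Pool.Agent.Q62.RN.Stm

/-! Project RN (helper62), job C1: the shadow. -/

set_option autoImplicit false

open MeasureTheory Filter Topology Set
open scoped ContDiff ENNReal Manifold

namespace Pool.Agent.Q53.RN

open Pool.Agent.Q62.RN

/-- a smooth function which is `1` on a compact set, with support in an open neighbourhood -/
theorem exists_bump {C U : Set ℝ} (hC : IsCompact C) (hU : IsOpen U) (hCU : C ⊆ U) :
    ∃ φ : ℝ → ℝ, ContDiff ℝ ∞ φ ∧ (∀ x, 0 ≤ φ x ∧ φ x ≤ 1) ∧ tsupport φ ⊆ U ∧
      (∀ x ∈ C, φ x = 1) ∧ HasCompactSupport φ := by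
  obtain ⟨C', hC', hCC', hC'U⟩ := exists_compact_between hC hU hCU
  obtain ⟨f, hf0, hf1, hf⟩ := exists_contMDiffMap_zero_one_of_isClosed (n := (⊤ : ℕ∞)) 𝓘(ℝ)
    (isOpen_interior (s := C')).isClosed_compl hC.isClosed
    (Set.disjoint_left.2 fun x hx hx' => hx (hCC' hx'))
  have hsupp : Function.support f ⊆ C' := by
    intro x hx
    by_contra h
    exact hx (hf0 fun h2 => h (interior_subset h2))
  have hts : tsupport f ⊆ C' := closure_minimal hsupp hC'.isClosed
  refine ⟨f, ?_, fun x => ⟨(hf x).1, (hf x).2⟩, hts.trans hC'U, fun x hx => hf1 hx, ?_⟩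
  · exact contMDiff_iff_contDiff.1 f.contMDiff
  · exact hC'.of_isClosed_subset (isClosed_tsupport _) hts

theorem t_C1 : S_C1 := by
  intro R a b δ hR hab hδ hfin hle
  set Rs : Set ℂ := R ∩ {p | a ≤ p.re ∧ p.re ≤ b} with hRs
  have hstrip : MeasurableSet {p : ℂ | a ≤ p.re ∧ p.re ≤ b} :=
    ((isClosed_le continuous_const Complex.continuous_re).inter
      (isClosed_le Complex.continuous_re continuous_const)).measurableSet
  have hRsm : MeasurableSet Rs := hR.inter hstrip
  have hRsfin : H1 Rs < ⊤ := (measure_mono inter_subset_left).trans_lt hfin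
  set E : Set ℝ := Complex.re '' Rs with hE
  have hvE : volume E ≤ ENNReal.ofReal (5 / 8 * (b - a)) := by
    rw [← hausdorffMeasure_real]
    have hl : LipschitzWith 1 Complex.re := RCLike.lipschitzWith_re (K := ℂ)
    have := hl.hausdorffMeasure_image_le (d := 1) zero_le_one Rs
    rw [ENNReal.coe_one, ENNReal.one_rpow, one_mul] at this
    exact this.trans hle
  set H := toMeasurable volume E with hH
  set A : Set ℝ := Ioo a b \ H with hA
  have hAm : MeasurableSet A := measurableSet_Ioo.diff (measurableSet_toMeasurable _ _)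
  have hAv : ENNReal.ofReal (5 / 16 * (b - a)) < volume A := by
    have h1 : volume (Ioo a b) ≤ volume A + volume H := by
      refine (measure_mono ?_).trans (measure_union_le A H)
      intro x hx
      by_cases h : x ∈ H
      · exact Or.inr h
      · exact Or.inl ⟨hx, h⟩
    rw [hH, measure_toMeasurable, Real.volume_Ioo] at h1
    by_contra h2
    push Not at h2
    have h3 : ENNReal.ofReal (b - a) ≤ ENNReal.ofReal (5 / 16 * (b - a)) +
        ENNReal.ofReal (5 / 8 * (b - a)) := h1.trans (add_le_add h2 hvE)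
    rw [← ENNReal.ofReal_add (by nlinarith) (by nlinarith),
      ENNReal.ofReal_le_ofReal_iff (by nlinarith)] at h3
    linarith
  obtain ⟨C, hCA, hC, hCv⟩ := hAm.exists_lt_isCompact hAv
  set ν : Measure ℝ := Measure.map Complex.re (H1.restrict Rs) with hν
  have hνfin : IsFiniteMeasure ν := by
    have : IsFiniteMeasure (H1.restrict Rs) := ⟨by rwa [Measure.restrict_apply_univ]⟩
    exact Measure.isFiniteMeasure_map _ _
  have hνs : ∀ s : Set ℝ, MeasurableSet s → ν s = H1 (Complex.re ⁻¹' s ∩ Rs) := by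
    intro s hs
    rw [hν, Measure.map_apply Complex.measurable_re hs,
      Measure.restrict_apply (Complex.measurable_re hs)]
  have hνC : ν C = 0 := by
    rw [hνs C hC.measurableSet]
    have : Complex.re ⁻¹' C ∩ Rs = ∅ := by
      ext p
      simp only [mem_inter_iff, mem_preimage, mem_empty_iff_false, iff_false]
      rintro ⟨h1, h2⟩
      exact (hCA h1).2 (subset_toMeasurable _ _ ⟨p, h2, rfl⟩)
    rw [this, measure_empty]
  obtain ⟨U, hCU, hU, hUv⟩ := C.exists_isOpen_lt_of_lt (μ := ν) (ENNReal.ofReal δ)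
    (by rw [hνC]; exact ENNReal.ofReal_pos.2 hδ)
  obtain ⟨φ, hφ, hφ01, hφs, hφ1, hφc⟩ := exists_bump hC (hU.inter isOpen_Ioo)
    (fun x hx => ⟨hCU hx, (hCA hx).1⟩ : C ⊆ U ∩ Ioo a b)
  have hφi : Integrable φ := hφ.continuous.integrable_of_hasCompactSupport hφc
  refine ⟨φ, hφ, hφ01, hφs.trans inter_subset_right, ?_, ?_⟩
  · have h1 : volume.real C ≤ ∫ x, φ x := by
      have h2 : ∫ x in C, φ x ≤ ∫ x, φ x :=
        setIntegral_le_integral hφi (Eventually.of_forall fun x => (hφ01 x).1)
      have h3 : ∫ x in C, φ x = volume.real C := by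
        rw [setIntegral_congr_fun hC.measurableSet (fun x hx => hφ1 x hx)]
        simp
      rw [← h3]
      exact h2
    have h4 : 5 / 16 * (b - a) ≤ volume.real C := by
      have h5 : volume C < ⊤ := hC.measure_lt_top
      have h6 := (ENNReal.ofReal_le_iff_le_toReal h5.ne).1 hCv.le
      exact h6
    linarith
  · have hsub : ∀ p : ℂ, φ p.re ≠ 0 → p.re ∈ U ∧ p.re ∈ Ioo a b := fun p hp =>
      hφs (subset_tsupport _ hp)
    have hm : MeasurableSet (Complex.re ⁻¹' U) := Complex.measurable_re hU.measurableSet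
    have h1 : ∫ p in R, φ p.re ∂H1 ≤ ∫ p in R, (Complex.re ⁻¹' U ∩ Rs).indicator 1 p ∂H1 := by
      have : IsFiniteMeasure (H1.restrict R) := ⟨by rwa [Measure.restrict_apply_univ]⟩
      refine setIntegral_mono_on ?_ ?_ hR fun p hp => ?_
      · have hm2 : Measurable fun p : ℂ => φ p.re :=
          hφ.continuous.measurable.comp Complex.measurable_re
        refine Integrable.of_bound hm2.aestronglyMeasurable 1 (Eventually.of_forall fun p => ?_)
        rw [Real.norm_eq_abs, abs_le]
        exact ⟨by linarith [(hφ01 p.re).1], (hφ01 p.re).2⟩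
      · exact (integrable_const (1 : ℝ)).indicator (hm.inter hRsm)
      · by_cases h0 : φ p.re = 0
        · rw [h0]
          exact indicator_nonneg (fun _ _ => zero_le_one) _
        · have h2 := hsub p h0
          have h3 : p ∈ Complex.re ⁻¹' U ∩ Rs := ⟨h2.1, hp, h2.2.1.le, h2.2.2.le⟩
          rw [indicator_of_mem h3]
          exact (hφ01 p.re).2
    refine h1.trans ?_
    rw [integral_indicator_one (hm.inter hRsm), Measure.real, Measure.restrict_apply
      (hm.inter hRsm)]
    have h2 : (Complex.re ⁻¹' U ∩ Rs) ∩ R = Complex.re ⁻¹' U ∩ Rs :=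
      inter_eq_left.2 fun p hp => hp.2.1
    rw [h2, ← hνs U hU.measurableSet]
    exact ENNReal.toReal_le_of_le_ofReal hδ.le hUv.le

end Pool.Agent.Q53.RN
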