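import Pool.Agent.Q62.RN.Stm

/-! Project RN (helper62), job C2: auxiliary functions. -/

set_option autoImplicit false

open MeasureTheory Filter Topology Set
open scoped ContDiff ENNReal

namespace Pool.Agent.Q53.RN

open Pool.Agent.Q62.RN

theorem t_C2 : S_C2 := by
  constructor
  · let f : ContDiffBump (0 : ℝ) := ⟨1 / 2, 1, by norm_num, by norm_num⟩
    have hf : ContDiff ℝ ∞ (f : ℝ → ℝ) := f.contDiff
    have hd : Continuous (deriv (f : ℝ → ℝ)) := (hf.continuous_deriv (by simp))
    obtain ⟨K, hK⟩ := hd.bounded_above_of_compact_support f.hasCompactSupport.deriv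
    refine ⟨f, K, hf, fun y => f.nonneg, fun y => f.le_one, fun y hy => ?_, fun y hy => ?_, ?_,
      fun y => hK y⟩
    · apply f.one_of_mem_closedBall
      rw [Metric.mem_closedBall, dist_zero_right]
      exact hy
    · have h : y ∈ Function.support (f : ℝ → ℝ) := hy
      rw [f.support_eq, Metric.mem_ball, dist_zero_right] at h
      exact h
    · exact (norm_nonneg _).trans (hK 0)
  · intro a b hab
    let f : ContDiffBump ((a + b) / 2 : ℝ) :=
      ⟨15 / 32 * (b - a), 31 / 64 * (b - a), by nlinarith, by nlinarith⟩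
    have hf : ContDiff ℝ ∞ (f : ℝ → ℝ) := f.contDiff
    have hi : Integrable (f : ℝ → ℝ) :=
      hf.continuous.integrable_of_hasCompactSupport f.hasCompactSupport
    refine ⟨f, hf, fun y => f.nonneg, fun y => f.le_one, ?_, ?_⟩
    · rw [f.tsupport_eq, Real.closedBall_eq_Icc]
      change Icc ((a + b) / 2 - 31 / 64 * (b - a)) ((a + b) / 2 + 31 / 64 * (b - a)) ⊆ Ioo a b
      intro x hx
      exact ⟨by linarith [hx.1], by linarith [hx.2]⟩
    · have h1 : ∫ x in Icc ((a + b) / 2 - 15 / 32 * (b - a)) ((a + b) / 2 + 15 / 32 * (b - a)),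
          f x ≤ ∫ x, f x :=
        setIntegral_le_integral hi (Eventually.of_forall fun x => f.nonneg)
      have h2 : ∫ x in Icc ((a + b) / 2 - 15 / 32 * (b - a)) ((a + b) / 2 + 15 / 32 * (b - a)),
          f x = 15 / 16 * (b - a) := by
        have h3 : EqOn (fun x => f x) (fun _ => (1 : ℝ))
            (Icc ((a + b) / 2 - 15 / 32 * (b - a)) ((a + b) / 2 + 15 / 32 * (b - a))) := by
          intro x hx
          apply f.one_of_mem_closedBall
          rw [Real.closedBall_eq_Icc]
          exact hx
        rw [setIntegral_congr_fun measurableSet_Icc h3]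
        simp only [integral_const, smul_eq_mul, mul_one, measureReal_restrict_apply_univ,
          Real.volume_real_Icc]
        rw [max_eq_left (by nlinarith)]
        ring
      rw [h2] at h1
      refine le_trans ?_ h1
      nlinarith

end Pool.Agent.Q53.RN
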